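import Pool.Agent.K1H52.SX.Ram

/-! Project SX, piece S_DQ: the discriminant of a quadratic extension. -/

set_option autoImplicit false

namespace Pool.Agent.K1H52.SX

open NumberField Pool.Agent.K1H79.SX Polynomial
open scoped Classical nonZeroDivisors

set_option linter.unusedSectionVars false
set_option linter.unusedVariables false

variable (F L : Type) [Field F] [NumberField F] [Field L] [NumberField L] [Algebra F L]

theorem map_ne_bot {I : Ideal (𝓞 F)} (h : I ≠ ⊥) : I.map (algebraMap (𝓞 F) (𝓞 L)) ≠ ⊥ := by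
  intro h0
  apply h
  rw [Ideal.map_eq_bot_iff_le_ker] at h0
  rw [eq_bot_iff]
  intro x hx
  have h1 := h0 hx
  rw [RingHom.mem_ker] at h1
  have h2 : Function.Injective (algebraMap (𝓞 F) (𝓞 L)) := FaithfulSMul.algebraMap_injective _ _
  exact (injective_iff_map_eq_zero _).1 h2 x h1

theorem comap_ne_bot {P : Ideal (𝓞 L)} (hP0 : P ≠ ⊥) : P.comap (algebraMap (𝓞 F) (𝓞 L)) ≠ ⊥ :=
  Ideal.IsIntegral.comap_ne_bot (R := 𝓞 F) hP0

/-- a prime dividing the different is ramified -/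
theorem sq_dvd_of_dvd_different {P : Ideal (𝓞 L)} (hP : P.IsPrime) (hP0 : P ≠ ⊥)
    (h : P ∣ differentIdeal (𝓞 F) (𝓞 L)) :
    P ^ 2 ∣ (P.comap (algebraMap (𝓞 F) (𝓞 L))).map (algebraMap (𝓞 F) (𝓞 L)) := by
  have hPm : P.IsMaximal := hP.isMaximal hP0
  have hp : (P.comap (algebraMap (𝓞 F) (𝓞 L))).IsPrime := Ideal.IsPrime.comap _
  have hp0 : P.comap (algebraMap (𝓞 F) (𝓞 L)) ≠ ⊥ := comap_ne_bot F L hP0
  have hpm : (P.comap (algebraMap (𝓞 F) (𝓞 L))).IsMaximal := hp.isMaximal hp0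
  have hfin : Finite (𝓞 F ⧸ P.comap (algebraMap (𝓞 F) (𝓞 L))) :=
    Ideal.finiteQuotientOfFreeOfNeBot _ hp0
  have h1 : P ∣ (P.comap (algebraMap (𝓞 F) (𝓞 L))).map (algebraMap (𝓞 F) (𝓞 L)) :=
    Ideal.dvd_iff_le.2 Ideal.map_comap_le
  obtain ⟨Q, hQ⟩ := h1
  by_cases hPQ : P ∣ Q
  · rw [hQ, pow_two]
    exact mul_dvd_mul_left _ hPQ
  · exfalso
    have hcop : IsCoprime P Q := by
      have hprime : Prime P := (Ideal.prime_iff_isPrime hP0).2 hP
      rw [Ideal.isCoprime_iff_gcd]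
      exact (hprime.irreducible.gcd_eq_one_iff).2 hPQ
    exact not_dvd_differentIdeal_of_isCoprime (𝓞 F) P Q hcop hQ.symm h

theorem absNorm_le_comap {P : Ideal (𝓞 L)} (hP0 : P ≠ ⊥) :
    Ideal.absNorm (P.comap (algebraMap (𝓞 F) (𝓞 L))) ≤ Ideal.absNorm P := by
  rw [Ideal.absNorm_apply, Ideal.absNorm_apply, Submodule.cardQuot_apply, Submodule.cardQuot_apply]
  have hfin : Finite (𝓞 L ⧸ P) := Ideal.finiteQuotientOfFreeOfNeBot _ hP0
  refine Nat.card_le_card_of_injective (Ideal.quotientMap P (algebraMap (𝓞 F) (𝓞 L)) le_rfl) ?_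
  exact Ideal.quotientMap_injective' le_rfl

/-- in a quadratic extension a square dividing `𝔭` is equal to `𝔭` -/
theorem sq_eq (h2 : Module.finrank F L = 2) {𝔭 : Ideal (𝓞 F)} {P : Ideal (𝓞 L)} (hP0 : P ≠ ⊥)
    (hp0 : 𝔭 ≠ ⊥) (hcomap : P.comap (algebraMap (𝓞 F) (𝓞 L)) = 𝔭)
    (h : P ^ 2 ∣ 𝔭.map (algebraMap (𝓞 F) (𝓞 L))) :
    P ^ 2 = 𝔭.map (algebraMap (𝓞 F) (𝓞 L)) ∧ Ideal.absNorm P = Ideal.absNorm 𝔭 := by
  obtain ⟨K, hK⟩ := h
  have hfr : Module.finrank (𝓞 F) (𝓞 L) = 2 := by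
    rw [← h2]
    exact (IsFractionRing.finrank_eq (𝓞 F) F (𝓞 L) L).symm
  have h3 : Ideal.absNorm (𝔭.map (algebraMap (𝓞 F) (𝓞 L))) = Ideal.absNorm 𝔭 ^ 2 := by
    rw [Ideal.absNorm_algebraMap, hfr]
  have h4 : Ideal.absNorm 𝔭 ≤ Ideal.absNorm P := by
    rw [← hcomap]
    exact absNorm_le_comap F L hP0
  have h5 : 0 < Ideal.absNorm 𝔭 := Nat.pos_of_ne_zero fun h0 => hp0 (Ideal.absNorm_eq_zero_iff.1 h0)
  rw [hK, map_mul, map_pow] at h3
  have h6 : Ideal.absNorm K ≠ 0 := by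
    intro h0
    rw [h0, mul_zero] at h3
    exact (pow_pos h5 2).ne h3
  have h7 : Ideal.absNorm K = 1 := by
    have h8 : Ideal.absNorm 𝔭 ^ 2 * Ideal.absNorm K ≤ Ideal.absNorm 𝔭 ^ 2 * 1 := by
      rw [mul_one]
      calc Ideal.absNorm 𝔭 ^ 2 * Ideal.absNorm K ≤ Ideal.absNorm P ^ 2 * Ideal.absNorm K :=
            Nat.mul_le_mul_right _ (Nat.pow_le_pow_left h4 2)
        _ = _ := h3
    have h9 := Nat.le_of_mul_le_mul_left h8 (pow_pos h5 2)
    omega
  have h10 : K = ⊤ := Ideal.absNorm_eq_one_iff.1 h7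
  constructor
  · rw [hK, h10, ← Ideal.one_eq_top, mul_one]
  · rw [h7, mul_one] at h3
    exact Nat.pow_left_injective two_ne_zero h3

/-- parity of the valuation of an ideal of the base -/
theorem parity {𝔭 : Ideal (𝓞 F)} {P : Ideal (𝓞 L)} (hP : P.IsPrime) (hP0 : P ≠ ⊥)
    (hp : 𝔭.IsPrime) (hp0 : 𝔭 ≠ ⊥) (hcomap : P.comap (algebraMap (𝓞 F) (𝓞 L)) = 𝔭)
    (hsq : P ^ 2 = 𝔭.map (algebraMap (𝓞 F) (𝓞 L))) {I : Ideal (𝓞 F)} (hI : I ≠ ⊥) :
    ∃ (m : ℕ) (K : Ideal (𝓞 L)), I.map (algebraMap (𝓞 F) (𝓞 L)) = P ^ (2 * m) * K ∧ ¬ P ∣ K := by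
  have hprime : Prime 𝔭 := (Ideal.prime_iff_isPrime hp0).2 hp
  have hfin : FiniteMultiplicity 𝔭 I := FiniteMultiplicity.of_prime_left hprime hI
  obtain ⟨c, hc, hcn⟩ := hfin.exists_eq_pow_mul_and_not_dvd
  refine ⟨multiplicity 𝔭 I, c.map (algebraMap (𝓞 F) (𝓞 L)), ?_, ?_⟩
  · conv_lhs => rw [hc]
    rw [Ideal.map_mul, Ideal.map_pow, ← hsq, ← pow_mul]
  · intro h
    apply hcn
    rw [Ideal.dvd_iff_le] at h ⊢
    rw [← hcomap, ← Ideal.map_le_iff_le_comap]
    exact h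

/-- The element of the different coming from `x`. -/
theorem exists_trace (h2 : Module.finrank F L = 2) (x : 𝓞 L)
    (hx : ∀ y : 𝓞 F, algebraMap (𝓞 F) (𝓞 L) y ≠ x) :
    ∃ t : 𝓞 F, 2 * x - algebraMap (𝓞 F) (𝓞 L) t ∈ differentIdeal (𝓞 F) (𝓞 L) := by
  have hint : IsIntegral (𝓞 F) x := Algebra.IsIntegral.isIntegral x
  have hintL : IsIntegral (𝓞 F) (algebraMap (𝓞 L) L x) := hint.map (IsScalarTower.toAlgHom (𝓞 F) (𝓞 L) L)
  have hne : ∀ z : F, algebraMap F L z ≠ algebraMap (𝓞 L) L x := by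
    intro z hz
    have hzint : IsIntegral ℤ z := by
      have h3 : IsIntegral ℤ (algebraMap F L z) := by
        rw [hz]
        exact x.2
      exact (isIntegral_algebraMap_iff (algebraMap F L).injective).1 h3
    apply hx ⟨z, hzint⟩
    apply RingOfIntegers.ext
    exact hz
  -- the field generated
  have htop : Algebra.adjoin F {algebraMap (𝓞 L) L x} = ⊤ := by
    have h3 : IntermediateField.adjoin F {algebraMap (𝓞 L) L x} = ⊤ := by
      have h4 : Module.finrank F (IntermediateField.adjoin F {algebraMap (𝓞 L) L x}) ∣ 2 := by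
        rw [← h2]
        exact ⟨_, (Module.finrank_mul_finrank F (IntermediateField.adjoin F {algebraMap (𝓞 L) L x}) L).symm⟩
      rcases (Nat.dvd_prime Nat.prime_two).1 h4 with h5 | h5
      · exfalso
        rw [IntermediateField.finrank_eq_one_iff] at h5
        have h6 : algebraMap (𝓞 L) L x ∈ (⊥ : IntermediateField F L) := by
          rw [← h5]
          exact IntermediateField.mem_adjoin_simple_self F _
        obtain ⟨z, hz⟩ := IntermediateField.mem_bot.1 h6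
        exact hne z hz
      · apply IntermediateField.eq_of_le_of_finrank_eq le_top
        rw [h5, IntermediateField.finrank_top', h2]
    have h7 := congrArg IntermediateField.toSubalgebra h3
    rw [IntermediateField.adjoin_simple_toSubalgebra_of_isAlgebraic (Algebra.IsAlgebraic.isAlgebraic _),
      IntermediateField.top_toSubalgebra] at h7
    exact h7
  have hmem := aeval_derivative_mem_differentIdeal (𝓞 F) F L x htop
  have hmin : minpoly F (algebraMap (𝓞 L) L x) = (minpoly (𝓞 F) x).map (algebraMap (𝓞 F) F) :=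
    minpoly.isIntegrallyClosed_eq_field_fractions F L hint
  have hmonic : (minpoly (𝓞 F) x).Monic := minpoly.monic hint
  have hdeg : (minpoly (𝓞 F) x).natDegree = 2 := by
    have h3 : (minpoly F (algebraMap (𝓞 L) L x)).natDegree = 2 := by
      rw [← h2]
      have h4 : IntermediateField.adjoin F {algebraMap (𝓞 L) L x} = ⊤ := by
        rw [eq_top_iff]
        intro y _
        have : y ∈ Algebra.adjoin F {algebraMap (𝓞 L) L x} := by rw [htop]; exact Algebra.mem_top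
        exact IntermediateField.algebra_adjoin_le_adjoin F _ this
      rw [← IntermediateField.adjoin.finrank (Algebra.IsIntegral.isIntegral _), h4,
        IntermediateField.finrank_top']
    rw [hmin, hmonic.natDegree_map] at h3
    exact h3
  set p := minpoly (𝓞 F) x with hp
  have hquad := eq_quadratic_of_degree_le_two (p := p) (by
    rw [Polynomial.degree_eq_natDegree hmonic.ne_zero, hdeg]; exact le_rfl)
  have hlead : p.coeff 2 = 1 := by
    have := hmonic.coeff_natDegree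
    rwa [hdeg] at this
  refine ⟨-p.coeff 1, ?_⟩
  have hcalc : aeval x (derivative p) = 2 * x - algebraMap (𝓞 F) (𝓞 L) (-p.coeff 1) := by
    rw [hquad, hlead]
    simp
    left
    ring
  rw [← hcalc]
  exact hmem

/-- the valuation of the different at a ramified prime of a quadratic extension -/
theorem pow_dvd_two (h2 : Module.finrank F L = 2) {𝔭 : Ideal (𝓞 F)} {P : Ideal (𝓞 L)} (hP : P.IsPrime)
    (hP0 : P ≠ ⊥) (hp : 𝔭.IsPrime) (hp0 : 𝔭 ≠ ⊥) (hcomap : P.comap (algebraMap (𝓞 F) (𝓞 L)) = 𝔭)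
    (hsq : P ^ 2 = 𝔭.map (algebraMap (𝓞 F) (𝓞 L))) (n : ℕ)
    (hn : P ^ n ∣ differentIdeal (𝓞 F) (𝓞 L)) : P ^ n ∣ Ideal.span {(2 : 𝓞 L)} * P := by
  have hprime : Prime P := (Ideal.prime_iff_isPrime hP0).2 hP
  have h20 : Ideal.span {(2 : 𝓞 F)} ≠ ⊥ := by
    rw [Ne, Ideal.span_singleton_eq_bot]
    exact two_ne_zero
  obtain ⟨w, K, hK, hKn⟩ := parity F L hP hP0 hp hp0 hcomap hsq h20
  rw [Ideal.map_span, Set.image_singleton, map_ofNat] at hK
  by_cases hnw : n ≤ 2 * w + 1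
  · rw [hK, mul_assoc, mul_comm K P, ← mul_assoc, ← pow_succ]
    exact (pow_dvd_pow P hnw).mul_right _
  · exfalso
    push Not at hnw
    have hP2 : P ^ 2 ≠ P := by
      intro h
      have h3 : P * P = P * 1 := by rw [← pow_two, h, mul_one]
      have h4 : P = 1 := mul_left_cancel₀ hprime.ne_zero h3
      exact hP.ne_top (by rw [h4, Ideal.one_eq_top])
    obtain ⟨x, hxP, hxP2⟩ : ∃ x ∈ P, x ∉ P ^ 2 := by
      by_contra hcon
      push Not at hcon
      exact hP2 (le_antisymm (Ideal.pow_le_self two_ne_zero) hcon)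
    have hx : ∀ y : 𝓞 F, algebraMap (𝓞 F) (𝓞 L) y ≠ x := by
      intro y hy
      apply hxP2
      rw [← hy] at hxP ⊢
      have h3 : y ∈ P.comap (algebraMap (𝓞 F) (𝓞 L)) := hxP
      rw [hcomap] at h3
      rw [hsq]
      exact Ideal.mem_map_of_mem _ h3
    obtain ⟨t, ht⟩ := exists_trace F L h2 x hx
    have hy : 2 * x - algebraMap (𝓞 F) (𝓞 L) t ∈ P ^ (2 * w + 2) :=
      Ideal.pow_le_pow_right hnw (Ideal.dvd_iff_le.1 hn ht)
    have h2w : (2 : 𝓞 L) ∈ P ^ (2 * w) := by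
      rw [← Ideal.dvd_span_singleton, hK]
      exact dvd_mul_right _ _
    have h2x : 2 * x ∈ P ^ (2 * w + 1) := by
      rw [pow_succ]
      exact Ideal.mul_mem_mul h2w hxP
    have ht1 : algebraMap (𝓞 F) (𝓞 L) t ∈ P ^ (2 * w + 1) := by
      have h3 : algebraMap (𝓞 F) (𝓞 L) t = 2 * x - (2 * x - algebraMap (𝓞 F) (𝓞 L) t) := by ring
      rw [h3]
      exact Ideal.sub_mem _ h2x (Ideal.pow_le_pow_right (by omega) hy)
    have ht2 : algebraMap (𝓞 F) (𝓞 L) t ∈ P ^ (2 * w + 2) := by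
      by_cases ht0 : t = 0
      · rw [ht0, map_zero]; exact Ideal.zero_mem _
      · have ht00 : Ideal.span {t} ≠ ⊥ := by
          rw [Ne, Ideal.span_singleton_eq_bot]
          exact ht0
        obtain ⟨m, K', hK', hKn'⟩ := parity F L hP hP0 hp hp0 hcomap hsq ht00
        rw [Ideal.map_span, Set.image_singleton] at hK'
        rw [← Ideal.dvd_span_singleton, hK'] at ht1 ⊢
        have hm : 2 * w + 2 ≤ 2 * m := by
          by_contra hcon
          have h3 : 2 * m + 1 ≤ 2 * w + 1 := by omega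
          have h4 : P ^ (2 * m) * P ∣ P ^ (2 * m) * K' := by
            rw [← pow_succ]
            exact (pow_dvd_pow P h3).trans ht1
          exact hKn' ((mul_dvd_mul_iff_left (pow_ne_zero _ hprime.ne_zero)).1 h4)
        exact (pow_dvd_pow P hm).mul_right _
    have h5 : 2 * x ∈ P ^ (2 * w + 2) := by
      have h3 : 2 * x = (2 * x - algebraMap (𝓞 F) (𝓞 L) t) + algebraMap (𝓞 F) (𝓞 L) t := by ring
      rw [h3]
      exact Ideal.add_mem _ hy ht2
    rw [← Ideal.dvd_span_singleton, ← Ideal.span_singleton_mul_span_singleton, hK, pow_add, mul_assoc] at h5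
    have h6 : P ^ 2 ∣ K * Ideal.span {x} := (mul_dvd_mul_iff_left (pow_ne_zero _ hprime.ne_zero)).1 h5
    have h7 : P ^ 2 ∣ Ideal.span {x} := hprime.pow_dvd_of_dvd_mul_left 2 hKn h6
    rw [Ideal.dvd_span_singleton] at h7
    exact hxP2 h7

theorem PP_sq (h2 : Module.finrank F L = 2) {𝔭 : Ideal (𝓞 F)} (h : 𝔭 ∈ RamS F L) :
    PP F L 𝔭 ^ 2 = 𝔭.map (algebraMap (𝓞 F) (𝓞 L)) ∧ Ideal.absNorm (PP F L 𝔭) = Ideal.absNorm 𝔭 := by
  obtain ⟨h1, h3, h4, h5⟩ := PP_spec F L h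
  exact sq_eq F L h2 h3 h.2.1 h5 h4

theorem different_dvd (h2 : Module.finrank F L = 2) (S : Finset (Ideal (𝓞 F)))
    (hS : ∀ 𝔭, 𝔭 ∈ S ↔ 𝔭 ∈ RamS F L) :
    differentIdeal (𝓞 F) (𝓞 L) ∣ Ideal.span {(2 : 𝓞 L)} * ∏ 𝔭 ∈ S, PP F L 𝔭 := by
  have hD0 : differentIdeal (𝓞 F) (𝓞 L) ≠ 0 := differentIdeal_ne_bot
  have hJ0 : ∏ 𝔭 ∈ S, PP F L 𝔭 ≠ 0 := by
    rw [Finset.prod_ne_zero_iff]
    intro 𝔭 h𝔭
    exact (PP_spec F L ((hS 𝔭).1 h𝔭)).2.1
  have h20 : Ideal.span {(2 : 𝓞 L)} ≠ 0 := by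
    rw [Ideal.zero_eq_bot, Ne, Ideal.span_singleton_eq_bot]
    exact two_ne_zero
  have hE0 : Ideal.span {(2 : 𝓞 L)} * ∏ 𝔭 ∈ S, PP F L 𝔭 ≠ 0 := mul_ne_zero h20 hJ0
  rw [UniqueFactorizationMonoid.dvd_iff_normalizedFactors_le_normalizedFactors hD0 hE0, Multiset.le_iff_count]
  intro P
  by_cases h0 : P ∈ UniqueFactorizationMonoid.normalizedFactors (differentIdeal (𝓞 F) (𝓞 L))
  · have hprime : Prime P := UniqueFactorizationMonoid.prime_of_normalized_factor P h0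
    have hP0 : P ≠ ⊥ := hprime.ne_zero
    have hP : P.IsPrime := (Ideal.prime_iff_isPrime hP0).1 hprime
    have hdvd : P ∣ differentIdeal (𝓞 F) (𝓞 L) := UniqueFactorizationMonoid.dvd_of_mem_normalizedFactors h0
    set n := Multiset.count P (UniqueFactorizationMonoid.normalizedFactors (differentIdeal (𝓞 F) (𝓞 L)))
      with hn
    have hpow : P ^ n ∣ differentIdeal (𝓞 F) (𝓞 L) := by
      rw [pow_dvd_iff_le_emultiplicity,
        UniqueFactorizationMonoid.le_emultiplicity_iff_replicate_le_normalizedFactors hprime.irreducible hD0,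
        normalize_eq, ← Multiset.le_count_iff_replicate_le]
    have hsqd := sq_dvd_of_dvd_different F L hP hP0 hdvd
    set 𝔭 := P.comap (algebraMap (𝓞 F) (𝓞 L)) with h𝔭
    have hp : 𝔭.IsPrime := Ideal.IsPrime.comap _
    have hp0 : 𝔭 ≠ ⊥ := comap_ne_bot F L hP0
    have hram : 𝔭 ∈ RamS F L := by
      refine ⟨hp, hp0, ?_⟩
      intro hsf
      have := hsf P (by rw [← pow_two]; exact hsqd)
      exact hprime.not_unit this
    have hsq := (sq_eq F L h2 hP0 hp0 h𝔭.symm hsqd).1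
    obtain ⟨q1, q2, q3, q4⟩ := PP_spec F L hram
    have hPP : P = PP F L 𝔭 := by
      have h3 : P ∣ PP F L 𝔭 ^ 2 := by
        rw [(PP_sq F L h2 hram).1, ← hsq]
        exact dvd_pow_self P two_ne_zero
      have h4 := Ideal.dvd_iff_le.1 (hprime.dvd_of_dvd_pow h3)
      exact ((q1.isMaximal q2).eq_of_le hP.ne_top h4).symm
    have h5 := pow_dvd_two F L h2 hP hP0 hp hp0 h𝔭.symm hsq n hpow
    have h6 : P ^ n ∣ Ideal.span {(2 : 𝓞 L)} * ∏ 𝔭 ∈ S, PP F L 𝔭 := by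
      refine h5.trans (mul_dvd_mul_left _ ?_)
      rw [hPP]
      exact Finset.dvd_prod_of_mem (fun 𝔭 => PP F L 𝔭) ((hS 𝔭).2 hram)
    rw [pow_dvd_iff_le_emultiplicity,
        UniqueFactorizationMonoid.le_emultiplicity_iff_replicate_le_normalizedFactors hprime.irreducible hE0,
        normalize_eq, ← Multiset.le_count_iff_replicate_le] at h6
    exact h6
  · rw [Multiset.count_eq_zero_of_notMem h0]
    exact Nat.zero_le _

theorem absNorm_two : Ideal.absNorm (Ideal.span {(2 : 𝓞 L)}) = 2 ^ Module.finrank ℚ L := by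
  have h1 := Ideal.absNorm_algebraMap (R := ℤ) (S := 𝓞 L) (Ideal.span {(2 : ℤ)})
  rw [Ideal.map_span, Set.image_singleton, map_ofNat] at h1
  rw [h1, RingOfIntegers.rank]
  simp

theorem t_DQ : S_DQ := by
  intro F L _ _ _ _ _ h2 S hS
  have h3 : (discr L).natAbs = Ideal.absNorm (differentIdeal (𝓞 F) (𝓞 L)) * (discr F).natAbs ^ 2 := by
    rw [natAbs_discr_eq_absNorm_differentIdeal_mul_natAbs_discr_pow F (𝓞 F) L (𝓞 L), h2]
  have h4 : Ideal.absNorm (differentIdeal (𝓞 F) (𝓞 L)) ≤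
      4 ^ Module.finrank ℚ F * ∏ 𝔭 ∈ S, Ideal.absNorm 𝔭 := by
    have h5 := map_dvd Ideal.absNorm (different_dvd F L h2 S hS)
    rw [map_mul, absNorm_two, map_prod] at h5
    have h6 : ∏ 𝔭 ∈ S, Ideal.absNorm (PP F L 𝔭) = ∏ 𝔭 ∈ S, Ideal.absNorm 𝔭 :=
      Finset.prod_congr rfl fun 𝔭 h𝔭 => (PP_sq F L h2 ((hS 𝔭).1 h𝔭)).2
    have h7 : (2 : ℕ) ^ Module.finrank ℚ L = 4 ^ Module.finrank ℚ F := by
      rw [← Module.finrank_mul_finrank ℚ F L, h2, mul_comm, pow_mul]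
      norm_num
    rw [h6, h7] at h5
    refine Nat.le_of_dvd ?_ h5
    refine Nat.mul_pos (by positivity) (Finset.prod_pos fun 𝔭 h𝔭 => ?_)
    exact Nat.pos_of_ne_zero fun h0 => ((hS 𝔭).1 h𝔭).2.1 (Ideal.absNorm_eq_zero_iff.1 h0)
  rw [h3]
  calc Ideal.absNorm (differentIdeal (𝓞 F) (𝓞 L)) * (discr F).natAbs ^ 2
      ≤ (4 ^ Module.finrank ℚ F * ∏ 𝔭 ∈ S, Ideal.absNorm 𝔭) * (discr F).natAbs ^ 2 :=
        Nat.mul_le_mul_right _ h4
    _ = _ := by ring

end Pool.Agent.K1H52.SX
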