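import Pool.Agent.K1H79.SX.Stm

/-! Project SX, piece S_RAM: the ramified primes. -/

set_option autoImplicit false
set_option linter.deprecated false

namespace Pool.Agent.K1H52.SX

open NumberField Pool.Agent.K1H79.SX
open scoped Classical nonZeroDivisors

variable (F L : Type) [Field F] [NumberField F] [Field L] [NumberField L] [Algebra F L]

/-- a prime with a square dividing the extension of `𝔭` -/
theorem exists_prime {𝔭 : Ideal (𝓞 F)} (h : 𝔭 ∈ RamS F L) :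
    ∃ P : Ideal (𝓞 L), P.IsPrime ∧ P ≠ ⊥ ∧ P ^ 2 ∣ 𝔭.map (algebraMap (𝓞 F) (𝓞 L)) ∧
      P.comap (algebraMap (𝓞 F) (𝓞 L)) = 𝔭 := by
  obtain ⟨hp, hp0, hsq⟩ := h
  have hmap : 𝔭.map (algebraMap (𝓞 F) (𝓞 L)) ≠ ⊥ := by
    intro h0
    apply hp0
    rw [Ideal.map_eq_bot_iff_le_ker] at h0
    rw [eq_bot_iff]
    intro x hx
    have h1 := h0 hx
    rw [RingHom.mem_ker] at h1
    have h2 : Function.Injective (algebraMap (𝓞 F) (𝓞 L)) := FaithfulSMul.algebraMap_injective _ _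
    exact (injective_iff_map_eq_zero _).1 h2 x h1
  unfold Squarefree at hsq
  push Not at hsq
  obtain ⟨I, hI, hIu⟩ := hsq
  have hI1 : I ≠ ⊤ := by
    intro h1
    apply hIu
    rw [h1, ← Ideal.one_eq_top]
    exact isUnit_one
  obtain ⟨P, hPm, hIP⟩ := Ideal.exists_le_maximal I hI1
  have hPI : P ∣ I := Ideal.dvd_iff_le.2 hIP
  have h2 : P ^ 2 ∣ 𝔭.map (algebraMap (𝓞 F) (𝓞 L)) := by
    rw [pow_two]
    exact (mul_dvd_mul hPI hPI).trans hI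
  have hP0 : P ≠ ⊥ := by
    intro h0
    rw [h0] at h2
    apply hmap
    have : (⊥ : Ideal (𝓞 L)) ^ 2 = 0 := by rw [← Ideal.zero_eq_bot]; simp
    rw [this, zero_dvd_iff] at h2
    exact h2
  refine ⟨P, hPm.isPrime, hP0, h2, ?_⟩
  have hpm : 𝔭.IsMaximal := hp.isMaximal hp0
  have h3 : 𝔭 ≤ P.comap (algebraMap (𝓞 F) (𝓞 L)) := by
    rw [← Ideal.map_le_iff_le_comap]
    exact Ideal.dvd_iff_le.1 ((dvd_pow_self P two_ne_zero).trans h2)
  have h4 : P.comap (algebraMap (𝓞 F) (𝓞 L)) ≠ ⊤ := by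
    have := hPm.isPrime
    exact (Ideal.IsPrime.comap (algebraMap (𝓞 F) (𝓞 L))).ne_top
  exact (hpm.eq_of_le h4 h3).symm

/-- the chosen prime -/
noncomputable def PP (𝔭 : Ideal (𝓞 F)) : Ideal (𝓞 L) :=
  if h : 𝔭 ∈ RamS F L then (exists_prime F L h).choose else ⊤

theorem PP_spec {𝔭 : Ideal (𝓞 F)} (h : 𝔭 ∈ RamS F L) :
    (PP F L 𝔭).IsPrime ∧ PP F L 𝔭 ≠ ⊥ ∧ PP F L 𝔭 ^ 2 ∣ 𝔭.map (algebraMap (𝓞 F) (𝓞 L)) ∧
      (PP F L 𝔭).comap (algebraMap (𝓞 F) (𝓞 L)) = 𝔭 := by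
  unfold PP
  rw [dif_pos h]
  exact (exists_prime F L h).choose_spec

theorem PP_dvd {𝔭 : Ideal (𝓞 F)} (h : 𝔭 ∈ RamS F L) :
    PP F L 𝔭 ∣ differentIdeal (𝓞 F) (𝓞 L) := by
  obtain ⟨h1, h2, h3, h4⟩ := PP_spec F L h
  have : 𝔭.IsMaximal := h.1.isMaximal h.2.1
  have := pow_sub_one_dvd_differentIdeal (𝓞 F) (PP F L 𝔭) 2 h.2.1 h3
  simpa using this

theorem absNorm_dvd_disc {I : Ideal (𝓞 L)} (h : I ∣ differentIdeal (𝓞 F) (𝓞 L)) :
    Ideal.absNorm I ∣ (discr L).natAbs := by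
  rw [natAbs_discr_eq_absNorm_differentIdeal_mul_natAbs_discr_pow F (𝓞 F) L (𝓞 L)]
  exact (map_dvd Ideal.absNorm h).mul_right _

theorem absNorm_le_absNorm {𝔭 : Ideal (𝓞 F)} (h : 𝔭 ∈ RamS F L) :
    Ideal.absNorm 𝔭 ≤ Ideal.absNorm (PP F L 𝔭) := by
  obtain ⟨h1, h2, h3, h4⟩ := PP_spec F L h
  rw [Ideal.absNorm_apply, Ideal.absNorm_apply, Submodule.cardQuot_apply, Submodule.cardQuot_apply]
  have hfin : Finite (𝓞 L ⧸ PP F L 𝔭) := Ideal.finiteQuotientOfFreeOfNeBot _ h2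
  have hle : 𝔭 ≤ (PP F L 𝔭).comap (algebraMap (𝓞 F) (𝓞 L)) := h4.ge
  refine Nat.card_le_card_of_injective (Ideal.quotientMap (PP F L 𝔭) (algebraMap (𝓞 F) (𝓞 L)) hle) ?_
  exact Ideal.quotientMap_injective' h4.le

theorem prod_le (S : Finset (Ideal (𝓞 F))) (hS : ∀ 𝔭 ∈ S, 𝔭 ∈ RamS F L) :
    ∏ 𝔭 ∈ S, Ideal.absNorm 𝔭 ≤ (discr L).natAbs := by
  have h1 : ∏ 𝔭 ∈ S, PP F L 𝔭 ∣ differentIdeal (𝓞 F) (𝓞 L) := by
    refine Finset.prod_dvd_of_coprime ?_ fun 𝔭 h𝔭 => PP_dvd F L (hS 𝔭 h𝔭)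
    intro 𝔭 h𝔭 𝔮 h𝔮 hne
    obtain ⟨a1, a2, a3, a4⟩ := PP_spec F L (hS 𝔭 h𝔭)
    obtain ⟨b1, b2, b3, b4⟩ := PP_spec F L (hS 𝔮 h𝔮)
    have ma : (PP F L 𝔭).IsMaximal := a1.isMaximal a2
    have mb : (PP F L 𝔮).IsMaximal := b1.isMaximal b2
    change IsCoprime (PP F L 𝔭) (PP F L 𝔮)
    refine Ideal.isCoprime_iff_sup_eq.2 ?_
    refine ma.coprime_of_ne mb ?_
    intro heq
    apply hne
    rw [← a4, ← b4, heq]
  have h2 : ∏ 𝔭 ∈ S, Ideal.absNorm (PP F L 𝔭) ∣ (discr L).natAbs := by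
    have := absNorm_dvd_disc F L h1
    rwa [map_prod] at this
  have hd : 0 < (discr L).natAbs := Int.natAbs_pos.2 (discr_ne_zero L)
  refine le_trans ?_ (Nat.le_of_dvd hd h2)
  exact Finset.prod_le_prod' fun 𝔭 h𝔭 => absNorm_le_absNorm F L (hS 𝔭 h𝔭)

/-- the rational prime below -/
theorem exists_rat {𝔭 : Ideal (𝓞 F)} (h : 𝔭 ∈ RamS F L) :
    ∃ q ∈ (discr L).natAbs.primeFactors, ((q : ℕ) : 𝓞 F) ∈ 𝔭 := by
  obtain ⟨h1, h2, h3, h4⟩ := PP_spec F L h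
  have hN : ((Ideal.absNorm (PP F L 𝔭) : ℕ) : 𝓞 L) ∈ PP F L 𝔭 := Ideal.absNorm_mem _
  have hd : Ideal.absNorm (PP F L 𝔭) ∣ (discr L).natAbs := absNorm_dvd_disc F L (PP_dvd F L h)
  have hd0 : (discr L).natAbs ≠ 0 := (Int.natAbs_pos.2 (discr_ne_zero L)).ne'
  have hN0 : Ideal.absNorm (PP F L 𝔭) ≠ 0 := fun h0 => hd0 (by rw [h0, zero_dvd_iff] at hd; exact hd)
  have key : ∀ n : ℕ, n ≠ 0 → ((n : ℕ) : 𝓞 L) ∈ PP F L 𝔭 →
      ∃ q ∈ n.primeFactors, ((q : ℕ) : 𝓞 L) ∈ PP F L 𝔭 := by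
    intro n
    induction n using Nat.recOnMul with
    | zero => intro h0; exact absurd rfl h0
    | one =>
      intro _ h5
      rw [Nat.cast_one] at h5
      exact absurd ((Ideal.eq_top_iff_one _).2 h5) h1.ne_top
    | prime p hp =>
      intro _ h5
      exact ⟨p, Nat.mem_primeFactors.2 ⟨hp, dvd_rfl, hp.ne_zero⟩, h5⟩
    | mul a b iha ihb =>
      intro h0 h5
      have ha : a ≠ 0 := fun h => h0 (by rw [h, zero_mul])
      have hb : b ≠ 0 := fun h => h0 (by rw [h, mul_zero])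
      rw [Nat.cast_mul] at h5
      rcases h1.mem_or_mem h5 with h6 | h6
      · obtain ⟨q, hq, hq2⟩ := iha ha h6
        exact ⟨q, Nat.primeFactors_mono (dvd_mul_right a b) h0 hq, hq2⟩
      · obtain ⟨q, hq, hq2⟩ := ihb hb h6
        exact ⟨q, Nat.primeFactors_mono (dvd_mul_left b a) h0 hq, hq2⟩
  obtain ⟨q, hq, hq2⟩ := key _ hN0 hN
  refine ⟨q, Nat.primeFactors_mono hd hd0 hq, ?_⟩
  rw [← h4, Ideal.mem_comap, map_natCast]
  exact hq2

theorem t_RAM : S_RAM := by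
  intro F L _ _ _ _ _
  have hsub : RamS F L ⊆ ((((discr L).natAbs.primeFactors).biUnion fun q =>
      IsDedekindDomain.primesOverFinset (Ideal.span {(q : ℤ)}) (𝓞 F) : Finset (Ideal (𝓞 F))) :
      Set (Ideal (𝓞 F))) := by
    intro 𝔭 h
    obtain ⟨q, hq, hq2⟩ := exists_rat F L h
    rw [Finset.mem_coe, Finset.mem_biUnion]
    refine ⟨q, hq, ?_⟩
    have hqp : q.Prime := Nat.prime_of_mem_primeFactors hq
    have hq0 : Ideal.span {(q : ℤ)} ≠ ⊥ := by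
      rw [Ne, Ideal.span_singleton_eq_bot]
      exact_mod_cast hqp.ne_zero
    have hqm : (Ideal.span {(q : ℤ)}).IsMaximal := by
      have : (Ideal.span {(q : ℤ)}).IsPrime := by
        rw [Ideal.span_singleton_prime (by exact_mod_cast hqp.ne_zero)]
        exact Nat.prime_iff_prime_int.1 hqp
      exact this.isMaximal hq0
    rw [IsDedekindDomain.mem_primesOverFinset_iff hq0]
    refine ⟨h.1, ⟨?_⟩⟩
    have := h.1
    refine hqm.eq_of_le (Ideal.IsPrime.under ℤ 𝔭).ne_top ?_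
    rw [Ideal.span_le]
    intro x hx
    rw [Set.mem_singleton_iff] at hx
    subst hx
    change (q : ℤ) ∈ 𝔭.comap (algebraMap ℤ (𝓞 F))
    rw [Ideal.mem_comap]
    simpa using hq2
  refine ⟨(Finset.finite_toSet _).subset hsub, ?_, fun S hS => prod_le F L S hS⟩
  have h1 : Nat.card (RamS F L) ≤ (((discr L).natAbs.primeFactors).biUnion fun q =>
      IsDedekindDomain.primesOverFinset (Ideal.span {(q : ℤ)}) (𝓞 F)).card := by
    rw [Nat.card_coe_set_eq, ← Set.ncard_coe_finset]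
    exact Set.ncard_le_ncard hsub (Finset.finite_toSet _)
  refine h1.trans (Finset.card_biUnion_le.trans ?_)
  rw [mul_comm, ← smul_eq_mul]
  refine Finset.sum_le_card_nsmul _ _ _ fun q hq => ?_
  have hqp : q.Prime := Nat.prime_of_mem_primeFactors hq
  have hq0 : Ideal.span {(q : ℤ)} ≠ ⊥ := by
    rw [Ne, Ideal.span_singleton_eq_bot]
    exact_mod_cast hqp.ne_zero
  have hqm : (Ideal.span {(q : ℤ)}).IsMaximal := by
    have : (Ideal.span {(q : ℤ)}).IsPrime := by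
      rw [Ideal.span_singleton_prime (by exact_mod_cast hqp.ne_zero)]
      exact Nat.prime_iff_prime_int.1 hqp
    exact this.isMaximal hq0
  exact Ideal.card_primesOverFinset_le_finrank (𝓞 F) ℚ F hq0

end Pool.Agent.K1H52.SX
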